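import Mathlib

/-!
# MP_38a930_nt: Bhargava factorials of prime quadruplets versus twin primes

The conjectured value of the ratio `n!_{P4} / n!_{P2}` is wrong for `n = 28`: the prime `29` is a twin
prime which is not a member of a prime quadruplet, and therefore `29` divides the ratio, whereas the
conjectured value is `3 * w_3(28) = 3`.
-/

set_option autoImplicit false

namespace Pool.Agent.Results.MP_38a930_nt.TwentyNine

open Finset

/-- `wpow p m` is the largest power of `p` dividing the (nonzero) integer `m`. -/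
noncomputable def wpow (p : ℕ) (m : ℤ) : ℕ := p ^ padicValInt p m

/-- `a` is a `p`-ordering of `X`: all its terms are in `X`, and for every `k` the term `a k` is chosen
in `X` such that the exponent of the power of `p` dividing `∏_{i < k} (a k - a i)` is as small as
possible (the exponent is an element of `ℕ∞`, it is infinite if the product is zero). -/
def IsPOrdering (X : Set ℤ) (p : ℕ) (a : ℕ → ℤ) : Prop :=
  (∀ k, a k ∈ X) ∧ ∀ k, ∀ x ∈ X,
    emultiplicity (p : ℤ) (∏ i ∈ range k, (a k - a i)) ≤
      emultiplicity (p : ℤ) (∏ i ∈ range k, (x - a i))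

/-- `m` is the `k`-th Bhargava factorial of `X`: there is a `p`-ordering `a p` of `X` for every prime
`p`, such that all the products `∏_{i < k} (a k - a i)` are nonzero, only finitely many of the prime
powers `ν_k(X, p) = w_p(∏_{i < k} (a k - a i))` are not `1`, and `m` is the product of the `ν_k(X, p)`
over all the primes `p`. -/
def IsBhargavaFactorial (X : Set ℤ) (k m : ℕ) : Prop :=
  ∃ a : ℕ → ℕ → ℤ, (∀ p : ℕ, p.Prime → IsPOrdering X p (a p)) ∧
    (∀ p : ℕ, p.Prime → ∏ i ∈ range k, (a p k - a p i) ≠ 0) ∧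
    {p : ℕ | p.Prime ∧ wpow p (∏ i ∈ range k, (a p k - a p i)) ≠ 1}.Finite ∧
    m = ∏ᶠ p ∈ {p : ℕ | p.Prime}, wpow p (∏ i ∈ range k, (a p k - a p i))

/-- The set of twin primes: the primes `p` such that `p - 2` or `p + 2` is prime. -/
def P2 : Set ℤ :=
  {x : ℤ | ∃ p r : ℕ, p.Prime ∧ r.Prime ∧ (r + 2 = p ∨ p + 2 = r) ∧ x = (p : ℤ)}

/-- The set of the primes occurring in a prime quadruplet `q, q + 2, q + 6, q + 8`. -/
def P4 : Set ℤ :=
  {x : ℤ | ∃ q : ℕ, q.Prime ∧ (q + 2).Prime ∧ (q + 6).Prime ∧ (q + 8).Prime ∧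
    (x = (q : ℤ) ∨ x = ((q + 2 : ℕ) : ℤ) ∨ x = ((q + 6 : ℕ) : ℤ) ∨ x = ((q + 8 : ℕ) : ℤ))}

/-! ### Existence of `p`-orderings -/

/-- A `p`-ordering, chosen greedily. -/
noncomputable def ord (X : Set ℤ) (hX : X.Nonempty) (p : ℕ) : ℕ → ℤ
  | k => Function.argminOn
      (fun x : ℤ => emultiplicity (p : ℤ) (∏ i : Fin k, (x - ord X hX p i.1))) X hX
decreasing_by exact i.2

lemma ord_isPOrdering (X : Set ℤ) (hX : X.Nonempty) (p : ℕ) : IsPOrdering X p (ord X hX p) := by
  constructor
  · intro k
    rw [ord]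
    exact Function.argminOn_mem _ _ _
  · intro k x hx
    have h := Function.argminOn_le
      (fun x : ℤ => emultiplicity (p : ℤ) (∏ i : Fin k, (x - ord X hX p i.1))) X hx
    rw [← Fin.prod_univ_eq_prod_range (fun i => ord X hX p k - ord X hX p i) k,
      ← Fin.prod_univ_eq_prod_range (fun i => x - ord X hX p i) k]
    conv_lhs => rw [ord]
    exact h

/-! ### Elements of a `p`-ordering are incongruent as long as possible -/

lemma not_dvd_of_card {X : Set ℤ} {p : ℕ} (hp : p.Prime) {a : ℕ → ℤ} (ha : IsPOrdering X p a)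
    {k : ℕ} {T : Finset ℤ} (hT : ∀ x ∈ T, x ∈ X) (hc : k < T.card)
    (hinj : ∀ x ∈ T, ∀ y ∈ T, (p : ℤ) ∣ x - y → x = y) :
    ¬ (p : ℤ) ∣ ∏ i ∈ range k, (a k - a i) := by
  have hpZ : Prime (p : ℤ) := Nat.prime_iff_prime_int.mp hp
  -- some element of `T` is incongruent to all `a i`, `i < k`
  obtain ⟨x, hxT, hx⟩ : ∃ x ∈ T, ∀ i < k, ¬ (p : ℤ) ∣ x - a i := by
    by_contra hcon
    push Not at hcon
    choose! f hf using hcon
    have h1 : T.card ≤ (range k).card := by
      apply Finset.card_le_card_of_injOn f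
      · intro x hx
        simp only [coe_range, Set.mem_Iio]
        exact (hf x hx).1
      · intro x hx y hy hxy
        have h1 := (hf x hx).2
        have h2 := (hf y hy).2
        rw [← hxy] at h2
        apply hinj x hx y hy
        have := dvd_sub h1 h2
        simpa using this
    rw [card_range] at h1
    omega
  have h0 : ¬ (p : ℤ) ∣ ∏ i ∈ range k, (x - a i) := by
    intro h
    obtain ⟨i, hi, hd⟩ := (hpZ.dvd_finsetProd_iff _).mp h
    exact hx i (mem_range.mp hi) hd
  have h1 := ha.2 k x (hT x hxT)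
  rw [emultiplicity_eq_zero.mpr h0] at h1
  exact emultiplicity_eq_zero.mp (le_antisymm h1 bot_le)

lemma wpow_eq_one {p : ℕ} {m : ℤ} (h : ¬ (p : ℤ) ∣ m) : wpow p m = 1 := by
  unfold wpow
  rw [padicValInt.eq_zero_of_not_dvd h, pow_zero]

lemma wpow_prime_dvd {p : ℕ} (hp : p.Prime) {m : ℤ} (hm : m ≠ 0) (h : (p : ℤ) ∣ m) :
    p ∣ wpow p m := by
  have : Fact p.Prime := ⟨hp⟩
  unfold wpow
  apply dvd_pow_self
  intro h0
  have h1 := (padicValInt_dvd_iff 1 m).mp (by simpa using h)
  rcases h1 with h1 | h1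
  · exact hm h1
  · omega

/-- existence of the factorials -/
lemma exists_factorial {X : Set ℤ} {k : ℕ} (T : Finset ℤ) (hT : ∀ x ∈ T, x ∈ X)
    (hc : k < T.card) : ∃ m, IsBhargavaFactorial X k m := by
  have hne : X.Nonempty := by
    obtain ⟨x, hx⟩ := Finset.card_pos.mp (lt_of_le_of_lt (Nat.zero_le _) hc)
    exact ⟨x, hT x hx⟩
  refine ⟨_, fun p => ord X hne p, fun p _ => ord_isPOrdering X hne p, ?_, ?_, rfl⟩
  · intro p hp
    have : Fact p.Prime := ⟨hp⟩
    -- choose an element of `T` different from all previous ones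
    obtain ⟨x, hxT, hx⟩ : ∃ x ∈ T, ∀ i < k, x ≠ ord X hne p i := by
      by_contra hcon
      push Not at hcon
      choose! f hf using hcon
      have h1 : T.card ≤ (range k).card := by
        apply Finset.card_le_card_of_injOn f
        · intro x hx
          simp only [coe_range, Set.mem_Iio]
          exact (hf x hx).1
        · intro x hx y hy hxy
          rw [(hf x hx).2, (hf y hy).2, hxy]
      rw [card_range] at h1
      omega
    have h0 : ∏ i ∈ range k, (x - ord X hne p i) ≠ 0 := by
      rw [Finset.prod_ne_zero_iff]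
      intro i hi
      exact sub_ne_zero.mpr (hx i (mem_range.mp hi))
    have h1 := (ord_isPOrdering X hne p).2 k x (hT x hxT)
    intro h2
    have h3 : emultiplicity (p : ℤ) (∏ i ∈ range k, (ord X hne p k - ord X hne p i)) = ⊤ := by
      rw [h2]; exact emultiplicity_zero _
    rw [h3, top_le_iff] at h1
    have h4 : FiniteMultiplicity (p : ℤ) (∏ i ∈ range k, (x - ord X hne p i)) := by
      rw [Int.finiteMultiplicity_iff]
      exact ⟨by simpa using hp.one_lt.ne', h0⟩
    exact (finiteMultiplicity_iff_emultiplicity_ne_top.mp h4) h1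
  · -- bound for the primes with nontrivial contribution
    obtain ⟨B, hB⟩ : ∃ B : ℕ, ∀ x ∈ T, ∀ y ∈ T, (x - y).natAbs ≤ B := by
      refine ⟨∑ x ∈ T, ∑ y ∈ T, (x - y).natAbs, fun x hx y hy => ?_⟩
      have h1 : (x - y).natAbs ≤ ∑ y ∈ T, (x - y).natAbs :=
        Finset.single_le_sum (f := fun y => (x - y).natAbs) (fun _ _ => Nat.zero_le _) hy
      exact h1.trans (Finset.single_le_sum (f := fun x => ∑ y ∈ T, (x - y).natAbs)
        (fun _ _ => Nat.zero_le _) hx)
    apply (Set.finite_Iic B).subset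
    rintro p ⟨hp, hne1⟩
    by_contra hpB
    simp only [Set.mem_Iic, not_le] at hpB
    apply hne1
    apply wpow_eq_one
    apply not_dvd_of_card hp (ord_isPOrdering X hne p) hT hc
    intro x hx y hy hd
    by_contra hxy
    have h1 : (x - y).natAbs ≠ 0 := by
      rw [Int.natAbs_ne_zero]; exact sub_ne_zero.mpr hxy
    have h2 : p ∣ (x - y).natAbs := by exact Int.natCast_dvd.mp hd
    have h3 := Nat.le_of_dvd (Nat.pos_of_ne_zero h1) h2
    have h4 := hB x hx y hy
    omega

/-- `29` members of `P2`, pairwise incongruent modulo `29` -/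
def T2 : Finset ℤ := {3, 5, 7, 11, 13, 17, 19, 29, 31, 41, 43, 59, 73, 103, 107, 109, 137, 139, 149,
  151, 199, 227, 229, 241, 269, 271, 347, 433, 569}

/-- `28` members of `P4`, pairwise incongruent modulo `29` -/
def T4 : Finset ℤ := {5, 7, 11, 13, 17, 19, 101, 103, 107, 109, 197, 199, 821, 827, 1481, 1483, 1487,
  1489, 1877, 2083, 2087, 2089, 3251, 3463, 3469, 5653, 9431, 16063}

/-- `29` members of `P4` -/
def T4' : Finset ℤ := {5, 7, 11, 13, 17, 19, 101, 103, 107, 109, 191, 197, 199, 821, 827, 1481, 1483,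
  1487, 1489, 1877, 2083, 2087, 2089, 3251, 3463, 3469, 5653, 9431, 16063}

lemma mem_P2 (p r : ℕ) (hp : p.Prime) (hr : r.Prime) (h : r + 2 = p ∨ p + 2 = r) :
    ((p : ℕ) : ℤ) ∈ P2 := ⟨p, r, hp, hr, h, rfl⟩

lemma T2_sub : ∀ x ∈ T2, x ∈ P2 := by
  intro x hx
  simp only [T2, Finset.mem_insert, Finset.mem_singleton] at hx
  rcases hx with h | h | h | h | h | h | h | h | h | h | h | h | h | h | h | h | h | h | h | h | h |
    h | h | h | h | h | h | h | h <;> subst h
  · exact mem_P2 3 5 (by norm_num) (by norm_num) (by norm_num)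
  · exact mem_P2 5 3 (by norm_num) (by norm_num) (by norm_num)
  · exact mem_P2 7 5 (by norm_num) (by norm_num) (by norm_num)
  · exact mem_P2 11 13 (by norm_num) (by norm_num) (by norm_num)
  · exact mem_P2 13 11 (by norm_num) (by norm_num) (by norm_num)
  · exact mem_P2 17 19 (by norm_num) (by norm_num) (by norm_num)
  · exact mem_P2 19 17 (by norm_num) (by norm_num) (by norm_num)
  · exact mem_P2 29 31 (by norm_num) (by norm_num) (by norm_num)
  · exact mem_P2 31 29 (by norm_num) (by norm_num) (by norm_num)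
  · exact mem_P2 41 43 (by norm_num) (by norm_num) (by norm_num)
  · exact mem_P2 43 41 (by norm_num) (by norm_num) (by norm_num)
  · exact mem_P2 59 61 (by norm_num) (by norm_num) (by norm_num)
  · exact mem_P2 73 71 (by norm_num) (by norm_num) (by norm_num)
  · exact mem_P2 103 101 (by norm_num) (by norm_num) (by norm_num)
  · exact mem_P2 107 109 (by norm_num) (by norm_num) (by norm_num)
  · exact mem_P2 109 107 (by norm_num) (by norm_num) (by norm_num)
  · exact mem_P2 137 139 (by norm_num) (by norm_num) (by norm_num)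
  · exact mem_P2 139 137 (by norm_num) (by norm_num) (by norm_num)
  · exact mem_P2 149 151 (by norm_num) (by norm_num) (by norm_num)
  · exact mem_P2 151 149 (by norm_num) (by norm_num) (by norm_num)
  · exact mem_P2 199 197 (by norm_num) (by norm_num) (by norm_num)
  · exact mem_P2 227 229 (by norm_num) (by norm_num) (by norm_num)
  · exact mem_P2 229 227 (by norm_num) (by norm_num) (by norm_num)
  · exact mem_P2 241 239 (by norm_num) (by norm_num) (by norm_num)
  · exact mem_P2 269 271 (by norm_num) (by norm_num) (by norm_num)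
  · exact mem_P2 271 269 (by norm_num) (by norm_num) (by norm_num)
  · exact mem_P2 347 349 (by norm_num) (by norm_num) (by norm_num)
  · exact mem_P2 433 431 (by norm_num) (by norm_num) (by norm_num)
  · exact mem_P2 569 571 (by norm_num) (by norm_num) (by norm_num)

lemma mem_P4 (q : ℕ) (h1 : q.Prime) (h2 : (q + 2).Prime) (h3 : (q + 6).Prime) (h4 : (q + 8).Prime)
    (x : ℤ) (hx : x = (q : ℤ) ∨ x = (q : ℤ) + 2 ∨ x = (q : ℤ) + 6 ∨ x = (q : ℤ) + 8) : x ∈ P4 := by
  refine ⟨q, h1, h2, h3, h4, ?_⟩
  push_cast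
  exact hx

lemma T4'_sub : ∀ x ∈ T4', x ∈ P4 := by
  intro x hx
  simp only [T4', Finset.mem_insert, Finset.mem_singleton] at hx
  rcases hx with h | h | h | h | h | h | h | h | h | h | h | h | h | h | h | h | h | h | h | h | h |
    h | h | h | h | h | h | h | h <;> subst h
  · exact mem_P4 5 (by norm_num) (by norm_num) (by norm_num) (by norm_num) _ (by norm_num)
  · exact mem_P4 5 (by norm_num) (by norm_num) (by norm_num) (by norm_num) _ (by norm_num)
  · exact mem_P4 5 (by norm_num) (by norm_num) (by norm_num) (by norm_num) _ (by norm_num)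
  · exact mem_P4 5 (by norm_num) (by norm_num) (by norm_num) (by norm_num) _ (by norm_num)
  · exact mem_P4 11 (by norm_num) (by norm_num) (by norm_num) (by norm_num) _ (by norm_num)
  · exact mem_P4 11 (by norm_num) (by norm_num) (by norm_num) (by norm_num) _ (by norm_num)
  · exact mem_P4 101 (by norm_num) (by norm_num) (by norm_num) (by norm_num) _ (by norm_num)
  · exact mem_P4 101 (by norm_num) (by norm_num) (by norm_num) (by norm_num) _ (by norm_num)
  · exact mem_P4 101 (by norm_num) (by norm_num) (by norm_num) (by norm_num) _ (by norm_num)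
  · exact mem_P4 101 (by norm_num) (by norm_num) (by norm_num) (by norm_num) _ (by norm_num)
  · exact mem_P4 191 (by norm_num) (by norm_num) (by norm_num) (by norm_num) _ (by norm_num)
  · exact mem_P4 191 (by norm_num) (by norm_num) (by norm_num) (by norm_num) _ (by norm_num)
  · exact mem_P4 191 (by norm_num) (by norm_num) (by norm_num) (by norm_num) _ (by norm_num)
  · exact mem_P4 821 (by norm_num) (by norm_num) (by norm_num) (by norm_num) _ (by norm_num)
  · exact mem_P4 821 (by norm_num) (by norm_num) (by norm_num) (by norm_num) _ (by norm_num)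
  · exact mem_P4 1481 (by norm_num) (by norm_num) (by norm_num) (by norm_num) _ (by norm_num)
  · exact mem_P4 1481 (by norm_num) (by norm_num) (by norm_num) (by norm_num) _ (by norm_num)
  · exact mem_P4 1481 (by norm_num) (by norm_num) (by norm_num) (by norm_num) _ (by norm_num)
  · exact mem_P4 1481 (by norm_num) (by norm_num) (by norm_num) (by norm_num) _ (by norm_num)
  · exact mem_P4 1871 (by norm_num) (by norm_num) (by norm_num) (by norm_num) _ (by norm_num)
  · exact mem_P4 2081 (by norm_num) (by norm_num) (by norm_num) (by norm_num) _ (by norm_num)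
  · exact mem_P4 2081 (by norm_num) (by norm_num) (by norm_num) (by norm_num) _ (by norm_num)
  · exact mem_P4 2081 (by norm_num) (by norm_num) (by norm_num) (by norm_num) _ (by norm_num)
  · exact mem_P4 3251 (by norm_num) (by norm_num) (by norm_num) (by norm_num) _ (by norm_num)
  · exact mem_P4 3461 (by norm_num) (by norm_num) (by norm_num) (by norm_num) _ (by norm_num)
  · exact mem_P4 3461 (by norm_num) (by norm_num) (by norm_num) (by norm_num) _ (by norm_num)
  · exact mem_P4 5651 (by norm_num) (by norm_num) (by norm_num) (by norm_num) _ (by norm_num)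
  · exact mem_P4 9431 (by norm_num) (by norm_num) (by norm_num) (by norm_num) _ (by norm_num)
  · exact mem_P4 16061 (by norm_num) (by norm_num) (by norm_num) (by norm_num) _ (by norm_num)

lemma T4_sub : ∀ x ∈ T4, x ∈ P4 := by
  intro x hx
  apply T4'_sub
  revert x
  decide

/-- no member of `P4` is divisible by `29` -/
lemma P4_not_dvd : ∀ x ∈ P4, ¬ (29 : ℤ) ∣ x := by
  rintro x ⟨q, h1, h2, h3, h4, hx⟩ hd
  have key : ∀ r : ℕ, r.Prime → x = (r : ℤ) → r = 29 := by
    intro r hr hxr
    rw [hxr] at hd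
    have h5 : 29 ∣ r := by exact_mod_cast hd
    exact ((Nat.prime_dvd_prime_iff_eq (by norm_num) hr).mp h5).symm
  rcases hx with hx | hx | hx | hx
  · have := key _ h1 hx
    subst this
    norm_num at h3
  · have := key _ h2 hx
    have h5 : q = 27 := by omega
    subst h5
    norm_num at h1
  · have := key _ h3 hx
    have h5 : q = 23 := by omega
    subst h5
    norm_num at h2
  · have := key _ h4 hx
    have h5 : q = 21 := by omega
    subst h5
    norm_num at h1

lemma T2_inj : ∀ x ∈ T2, ∀ y ∈ T2, ((29 : ℕ) : ℤ) ∣ x - y → x = y := by decide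

lemma T4_inj : ∀ x ∈ T4, ∀ y ∈ T4, ((29 : ℕ) : ℤ) ∣ x - y → x = y := by decide

lemma prime29 : Nat.Prime 29 := by norm_num

/-- `29` does not divide the factorial `28!` of the twin primes -/
lemma not_dvd_P2 {m : ℕ} (h : IsBhargavaFactorial P2 28 m) : ¬ 29 ∣ m := by
  obtain ⟨a, ha, h0, hfin, hm⟩ := h
  have hfin' : ({p : ℕ | p.Prime} ∩ Function.mulSupport
      (fun p => wpow p (∏ i ∈ range 28, (a p 28 - a p i)))).Finite := by
    apply hfin.subset
    rintro p ⟨h1, h2⟩
    exact ⟨h1, h2⟩
  rw [← finprod_mem_inter_mulSupport, finprod_mem_eq_finite_toFinset_prod _ hfin'] at hm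
  intro hd
  rw [hm, prime29.prime.dvd_finsetProd_iff] at hd
  obtain ⟨p, hp, hd⟩ := hd
  rw [Set.Finite.mem_toFinset] at hp
  have hp1 : p.Prime := hp.1
  unfold wpow at hd
  have h1 := prime29.dvd_of_dvd_pow hd
  have h2 : p = 29 := ((Nat.prime_dvd_prime_iff_eq prime29 hp1).mp h1).symm
  subst h2
  have h3 := not_dvd_of_card prime29 (ha 29 prime29) (k := 28) T2_sub (by decide) T2_inj
  exact hp.2 (wpow_eq_one h3)

/-- `29` divides the factorial `28!` of the quadruplet primes -/
lemma dvd_P4 {m : ℕ} (h : IsBhargavaFactorial P4 28 m) : 29 ∣ m := by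
  obtain ⟨a, ha, h0, hfin, hm⟩ := h
  have hfin' : ({p : ℕ | p.Prime} ∩ Function.mulSupport
      (fun p => wpow p (∏ i ∈ range 28, (a p 28 - a p i)))).Finite := by
    apply hfin.subset
    rintro p ⟨h1, h2⟩
    exact ⟨h1, h2⟩
  rw [← finprod_mem_inter_mulSupport, finprod_mem_eq_finite_toFinset_prod _ hfin'] at hm
  have hpZ : Prime ((29 : ℕ) : ℤ) := Nat.prime_iff_prime_int.mp prime29
  -- two of the first `29` terms are congruent
  have hA := ha 29 prime29
  have hlt : ∀ k, k < 28 → ∀ i < k, ¬ ((29 : ℕ) : ℤ) ∣ a 29 k - a 29 i := by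
    intro k hk i hi hd
    apply not_dvd_of_card prime29 hA (k := k) T4_sub
      (lt_of_lt_of_le hk (by decide : 28 ≤ T4.card)) T4_inj
    exact hd.trans (Finset.dvd_prod_of_mem _ (mem_range.mpr hi))
  have hkey : ((29 : ℕ) : ℤ) ∣ ∏ i ∈ range 28, (a 29 28 - a 29 i) := by
    have hmap : ∀ k ∈ range 29, (a 29 k % 29).toNat ∈ Finset.Icc 1 28 := by
      intro k _
      have h1 := P4_not_dvd _ (hA.1 k)
      rw [mem_Icc]
      omega
    obtain ⟨i, hi, j, hj, hij, hEq⟩ := Finset.exists_ne_map_eq_of_card_lt_of_maps_to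
      (by simp : (Finset.Icc 1 28).card < (range 29).card) hmap
    -- wlog `i < j`
    have main : ∀ i j : ℕ, i < j → j < 29 → (a 29 i % 29).toNat = (a 29 j % 29).toNat →
        ((29 : ℕ) : ℤ) ∣ ∏ i ∈ range 28, (a 29 28 - a 29 i) := by
      intro i j hij hj hEq
      have hd : ((29 : ℕ) : ℤ) ∣ a 29 j - a 29 i := by
        push_cast
        omega
      have hj28 : j = 28 := by
        by_contra hne
        exact hlt j (by omega) i hij hd
      subst hj28
      exact hd.trans (Finset.dvd_prod_of_mem _ (mem_range.mpr hij))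
    rw [mem_range] at hi hj
    rcases Nat.lt_or_gt_of_ne hij with h | h
    · exact main i j h hj hEq
    · exact main j i h hi hEq.symm
  have h1 : 29 ∣ wpow 29 (∏ i ∈ range 28, (a 29 28 - a 29 i)) :=
    wpow_prime_dvd prime29 (h0 29 prime29) hkey
  have h2 : wpow 29 (∏ i ∈ range 28, (a 29 28 - a 29 i)) ≠ 1 := by
    intro h
    rw [h] at h1
    norm_num at h1
  rw [hm]
  refine h1.trans ?_
  exact Finset.dvd_prod_of_mem
    (fun p => wpow p (∏ i ∈ range 28, (a p 28 - a p i)))
    (hfin'.mem_toFinset.mpr ⟨prime29, h2⟩)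

/-- **The conjectured formula for the ratio of the Bhargava factorials of the quadruplet primes and of
the twin primes fails at `n = 28`.** Both sets have more than `28` elements, both factorials exist, and
whatever `p`-orderings are used, the ratio is different from `3 * w_3(28)`. -/
theorem result :
    28 < P4.encard ∧ 28 < P2.encard ∧
    (∃ m, IsBhargavaFactorial P4 28 m) ∧ (∃ m, IsBhargavaFactorial P2 28 m) ∧
    Even 28 ∧
    ∀ m4 m2 : ℕ, IsBhargavaFactorial P4 28 m4 → IsBhargavaFactorial P2 28 m2 →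
      m2 ≠ 0 ∧ (m4 : ℚ) / (m2 : ℚ) ≠ ((3 * wpow 3 28 : ℕ) : ℚ) := by
  have c4 : T4'.card = 29 := by decide
  have c2 : T2.card = 29 := by decide
  refine ⟨?_, ?_, exists_factorial T4' T4'_sub (by rw [c4]; norm_num),
    exists_factorial T2 T2_sub (by rw [c2]; norm_num), by decide, ?_⟩
  · have h1 : (T4' : Set ℤ).encard ≤ P4.encard := Set.encard_le_encard (fun x hx => T4'_sub x hx)
    rw [Set.encard_coe_eq_coe_finsetCard, c4] at h1
    exact lt_of_lt_of_le (by norm_num) h1
  · have h1 : (T2 : Set ℤ).encard ≤ P2.encard := Set.encard_le_encard (fun x hx => T2_sub x hx)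
    rw [Set.encard_coe_eq_coe_finsetCard, c2] at h1
    exact lt_of_lt_of_le (by norm_num) h1
  · intro m4 m2 h4 h2
    have hd4 := dvd_P4 h4
    have hd2 := not_dvd_P2 h2
    have hm2 : m2 ≠ 0 := by
      rintro rfl
      exact hd2 (dvd_zero _)
    refine ⟨hm2, ?_⟩
    intro h
    have hw : wpow 3 28 = 1 := by
      apply wpow_eq_one
      norm_num
    rw [hw] at h
    have hm2' : (m2 : ℚ) ≠ 0 := by exact_mod_cast hm2
    rw [div_eq_iff hm2'] at h
    have h' : m4 = 3 * m2 := by exact_mod_cast h
    rw [h'] at hd4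
    rcases (prime29.dvd_mul).mp hd4 with h5 | h5
    · norm_num at h5
    · exact hd2 h5

end Pool.Agent.Results.MP_38a930_nt.TwentyNine
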